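import Mathlib

/-!
# A divisibility-minimal ultrafilter that is not minimal for finite embeddability

We work with ultrafilters on the positive integers `ℕ+`.  The ultrafilter
`F = lim_n (G ⋅ W_n)` constructed below lives on products of two distinct primes.
It lies in the closure of `G ⋅ βℕ`, hence `G ≤_fe F`, but it is not itself a product of
two ultrafilters on primes, hence it has no proper divisors.
-/

namespace Pool.Agent.Results.MP_b27926_lc.MinimalNotFeMinimal

open Filter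

/-- The quotient set `A / n = {m : n m ∈ A}`. -/
def quo (A : Set ℕ+) (n : ℕ+) : Set ℕ+ := {m | n * m ∈ A}

/-- The product of two ultrafilters on `ℕ+`; see `mem_mulU`:
`A ∈ F ⋅ G` if and only if `{n : A / n ∈ G} ∈ F`. -/
def mulU (F G : Ultrafilter ℕ+) : Ultrafilter ℕ+ := F.bind fun n => G.map fun m => n * m

/-- The divisibility relation: `G = H₁ ⋅ F ⋅ H₂` for some ultrafilters `H₁, H₂`. -/
def DivM (F G : Ultrafilter ℕ+) : Prop := ∃ H₁ H₂ : Ultrafilter ℕ+, G = mulU (mulU H₁ F) H₂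

/-- Finite embeddability of sets: every finite `S ⊆ A` has a multiple `k S ⊆ B`. -/
def FeSet (A B : Set ℕ+) : Prop :=
  ∀ S : Set ℕ+, S.Finite → S ⊆ A → ∃ k : ℕ+, ∀ a ∈ S, k * a ∈ B

/-- Finite embeddability of ultrafilters. -/
def Fe (F G : Ultrafilter ℕ+) : Prop := ∀ B ∈ G, ∃ A ∈ F, FeSet A B

/-- `F` is `ρ`-minimal: `F ≠ 1` and every `G` with `G ρ F` is `1` or satisfies `G =_ρ F`. -/
def IsMinimal (ρ : Ultrafilter ℕ+ → Ultrafilter ℕ+ → Prop) (F : Ultrafilter ℕ+) : Prop :=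
  F ≠ pure 1 ∧ ∀ G : Ultrafilter ℕ+, ρ G F → G = pure 1 ∨ (ρ G F ∧ ρ F G)

theorem mem_mulU {F G : Ultrafilter ℕ+} {A : Set ℕ+} :
    A ∈ mulU F G ↔ {n | quo A n ∈ G} ∈ F := Iff.rfl

theorem eventually_mulU {F G : Ultrafilter ℕ+} {p : ℕ+ → Prop} :
    (∀ᶠ x in mulU F G, p x) ↔ ∀ᶠ a in F, ∀ᶠ b in G, p (a * b) := Iff.rfl

/-- The product agrees with the product of ultrafilters in Mathlib. -/
theorem mulU_eq (F G : Ultrafilter ℕ+) :
    mulU F G = (Ultrafilter.mul (M := ℕ+)).mul F G := by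
  ext s
  exact Iff.rfl

/-! ### The construction -/

/-- The `i`-th prime as a positive integer. -/
noncomputable def pr (i : ℕ) : ℕ+ :=
  ⟨Nat.nth Nat.Prime i, (Nat.nth_mem_of_infinite Nat.infinite_setOfPred_prime i).pos⟩

theorem pr_prime (i : ℕ) : Nat.Prime (pr i : ℕ) :=
  Nat.nth_mem_of_infinite Nat.infinite_setOfPred_prime i

theorem pr_injective : Function.Injective pr := by
  intro i j h
  have h' : Nat.nth Nat.Prime i = Nat.nth Nat.Prime j := congrArg PNat.val h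
  exact Nat.nth_injective Nat.infinite_setOfPred_prime h'

theorem exists_pr {q : ℕ+} (hq : Nat.Prime (q : ℕ)) : ∃ i, pr i = q := by
  have : (q : ℕ) ∈ Set.range (Nat.nth Nat.Prime) := by
    rw [Nat.range_nth_of_infinite Nat.infinite_setOfPred_prime]
    exact hq
  obtain ⟨i, hi⟩ := this
  exact ⟨i, PNat.eq hi⟩

/-- A nonprincipal ultrafilter on `ℕ`. -/
noncomputable def U : Ultrafilter ℕ := hyperfilter ℕ

theorem U_gt (m : ℕ) : ∀ᶠ n in (U : Filter ℕ), m < n := by
  have h : ∀ᶠ n in (cofinite : Filter ℕ), m < n := by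
    rw [Nat.cofinite_eq_atTop]
    exact eventually_gt_atTop m
  exact (hyperfilter_le_cofinite (α := ℕ)) h

/-- The prime ultrafilter `G`. -/
noncomputable def G₀ : Ultrafilter ℕ+ := U.map pr

/-- The ultrafilters `W_n`, concentrated on pairwise disjoint sets of primes. -/
noncomputable def W (n : ℕ) : Ultrafilter ℕ+ := U.map fun k => pr (Nat.pair n k)

/-- The ultrafilter `F = lim_n (G ⋅ W_n)`. -/
noncomputable def F₀ : Ultrafilter ℕ+ := U.bind fun n => mulU G₀ (W n)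

theorem eventually_F₀ {p : ℕ+ → Prop} :
    (∀ᶠ x in F₀, p x) ↔
      ∀ᶠ n in (U : Filter ℕ), ∀ᶠ m in (U : Filter ℕ), ∀ᶠ k in (U : Filter ℕ),
        p (pr m * pr (Nat.pair n k)) := Iff.rfl

theorem U_pair_gt (n m : ℕ) : ∀ᶠ k in (U : Filter ℕ), m < Nat.pair n k := by
  filter_upwards [U_gt m] with k hk
  exact lt_of_lt_of_le hk (Nat.right_le_pair n k)

theorem prime_mem_G₀ : {x : ℕ+ | Nat.Prime (x : ℕ)} ∈ G₀ := by
  have h : ∀ᶠ i in (U : Filter ℕ), Nat.Prime (pr i : ℕ) :=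
    Filter.Eventually.of_forall pr_prime
  exact h

theorem G₀_ne_one : G₀ ≠ pure 1 := by
  intro h
  have h1 := prime_mem_G₀
  rw [h] at h1
  have h2 : (1 : ℕ+) ∈ {x : ℕ+ | Nat.Prime (x : ℕ)} := Ultrafilter.mem_pure.mp h1
  exact Nat.not_prime_one h2

theorem fe_G₀_F₀ : Fe G₀ F₀ := by
  intro B hB
  have h1 : ∀ᶠ n in (U : Filter ℕ), B ∈ mulU G₀ (W n) := hB
  obtain ⟨n, hn⟩ := h1.exists
  refine ⟨{a | quo B a ∈ W n}, hn, ?_⟩
  intro S hS hSA
  have h2 : (⋂ a ∈ S, quo B a) ∈ (W n : Filter ℕ+) :=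
    (Filter.biInter_mem hS).mpr fun a ha => hSA ha
  obtain ⟨k, hk⟩ := Ultrafilter.nonempty_of_mem h2
  refine ⟨k, fun a ha => ?_⟩
  have h3 : k ∈ quo B a := Set.mem_iInter₂.mp hk a ha
  have h4 : a * k ∈ B := h3
  rwa [mul_comm] at h4

theorem not_fe_F₀_G₀ : ¬ Fe F₀ G₀ := by
  intro h
  obtain ⟨A, hA, hAB⟩ := h _ prime_mem_G₀
  have h1 : ∀ᶠ n in (U : Filter ℕ), ∀ᶠ m in (U : Filter ℕ), ∀ᶠ k in (U : Filter ℕ),
      pr m * pr (Nat.pair n k) ∈ A := hA
  obtain ⟨n, hn⟩ := h1.exists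
  obtain ⟨m, hm⟩ := hn.exists
  obtain ⟨k, hk⟩ := hm.exists
  obtain ⟨c, hc⟩ := hAB {pr m * pr (Nat.pair n k)} (Set.finite_singleton _)
    (Set.singleton_subset_iff.mpr hk)
  have h2 : Nat.Prime ((c * (pr m * pr (Nat.pair n k)) : ℕ+) : ℕ) := hc _ rfl
  rw [PNat.mul_coe, PNat.mul_coe, ← mul_assoc] at h2
  have h3 : ¬ Nat.Prime (((c : ℕ) * (pr m : ℕ)) * (pr (Nat.pair n k) : ℕ)) := by
    apply Nat.not_prime_mul
    · intro h
      have := Nat.eq_one_of_mul_eq_one_left h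
      exact (pr_prime m).one_lt.ne' this
    · exact (pr_prime _).one_lt.ne'
  exact h3 h2

/-- Number of prime factors counted with multiplicity. -/
def om (n : ℕ+) : ℕ := ArithmeticFunction.cardFactors (n : ℕ)

theorem om_mul (a b : ℕ+) : om (a * b) = om a + om b := by
  unfold om
  rw [PNat.mul_coe]
  exact ArithmeticFunction.cardFactors_mul a.ne_zero b.ne_zero

theorem om_eq_zero {a : ℕ+} (h : om a = 0) : a = 1 := by
  unfold om at h
  rw [ArithmeticFunction.cardFactors_eq_zero_iff_eq_zero_or_one] at h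
  rcases h with h | h
  · exact absurd h a.ne_zero
  · exact PNat.eq h

theorem om_eq_one {a : ℕ+} (h : om a = 1) : Nat.Prime (a : ℕ) := by
  unfold om at h
  exact ArithmeticFunction.cardFactors_eq_one_iff_prime.mp h

theorem om_pr (i : ℕ) : om (pr i) = 1 := by
  unfold om
  exact ArithmeticFunction.cardFactors_apply_prime (pr_prime i)

theorem om_F₀ : ∀ᶠ x in F₀, om x = 2 := by
  rw [eventually_F₀]
  refine Filter.Eventually.of_forall fun n => Filter.Eventually.of_forall fun m =>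
    Filter.Eventually.of_forall fun k => ?_
  rw [om_mul, om_pr, om_pr]

theorem F₀_ne_one : F₀ ≠ pure 1 := by
  intro h
  have h1 := om_F₀
  rw [h] at h1
  have h2 : om 1 = 2 := h1
  simp [om] at h2

theorem eq_pure_of_eventually {α : Type*} {F : Ultrafilter α} {a : α}
    (h : ∀ᶠ x in (F : Filter α), x = a) : F = pure a := by
  refine Ultrafilter.eq_of_le ?_
  rw [Ultrafilter.coe_pure, Filter.le_pure_iff]
  exact h

theorem mulU_one (F : Ultrafilter ℕ+) : mulU F (pure 1) = F := by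
  ext s
  have : s ∈ mulU F (pure 1) ↔ {n : ℕ+ | n * 1 ∈ s} ∈ F := Iff.rfl
  rw [this]
  simp

theorem one_mulU (F : Ultrafilter ℕ+) : mulU (pure 1) F = F := by
  ext s
  have : s ∈ mulU (pure 1) F ↔ {m : ℕ+ | 1 * m ∈ s} ∈ F := Iff.rfl
  rw [this]
  simp

theorem divM_refl (F : Ultrafilter ℕ+) : DivM F F :=
  ⟨pure 1, pure 1, by rw [one_mulU, mulU_one]⟩

theorem fe_refl (F : Ultrafilter ℕ+) : Fe F F :=
  fun B hB => ⟨B, hB, fun _ _ hS => ⟨1, fun a ha => by simpa using hS ha⟩⟩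

/-- The key point: `F₀` is not a product of two ultrafilters concentrated on primes. -/
theorem F₀_ne_mulU {P Q : Ultrafilter ℕ+} (hP : ∀ᶠ x : ℕ+ in P, Nat.Prime (x : ℕ))
    (hQ : ∀ᶠ x : ℕ+ in Q, Nat.Prime (x : ℕ)) : F₀ ≠ mulU P Q := by
  intro h
  have key : ∀ p : ℕ+ → Prop,
      (∀ᶠ n in (U : Filter ℕ), ∀ᶠ m in (U : Filter ℕ), ∀ᶠ k in (U : Filter ℕ),
        p (pr m * pr (Nat.pair n k))) ↔ ∀ᶠ a in P, ∀ᶠ b in Q, p (a * b) := by
    intro p
    rw [← eventually_F₀, h, eventually_mulU]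
  -- `Q` contains no set of small primes
  have hQbig : ∀ N : ℕ, ∀ᶠ b in Q, ∀ y ≤ N, b ≠ pr y := by
    intro N
    by_contra hcon
    rw [← Ultrafilter.eventually_not] at hcon
    have h1 : ∀ᶠ a in P, ∀ᶠ b in Q, ∃ y ≤ N, pr y ∣ a * b := by
      refine Filter.Eventually.of_forall fun a => ?_
      filter_upwards [hcon] with b hb
      push Not at hb
      obtain ⟨y, hy, rfl⟩ := hb
      exact ⟨y, hy, Dvd.intro_left a rfl⟩
    rw [← key (fun x => ∃ y ≤ N, pr y ∣ x)] at h1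
    obtain ⟨n, hn⟩ := h1.exists
    obtain ⟨m, hm, hmN⟩ := (hn.and (U_gt N)).exists
    obtain ⟨k, hk, hkN⟩ := (hm.and (U_pair_gt n N)).exists
    obtain ⟨y, hyN, hy⟩ := hk
    have hy' : (pr y : ℕ) ∣ (pr m : ℕ) * (pr (Nat.pair n k) : ℕ) := by
      have := PNat.dvd_iff.mp hy
      rwa [PNat.mul_coe] at this
    rcases (Nat.Prime.dvd_mul (pr_prime y)).mp hy' with h2 | h2
    · have h3 := (Nat.prime_dvd_prime_iff_eq (pr_prime y) (pr_prime m)).mp h2
      have h4 := pr_injective (PNat.eq h3)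
      omega
    · have h3 := (Nat.prime_dvd_prime_iff_eq (pr_prime y) (pr_prime _)).mp h2
      have h4 := pr_injective (PNat.eq h3)
      omega
  -- uniqueness of the ordered factorization
  have huniq : ∀ x y x' y' : ℕ, x < y → x' < y' → pr x * pr y = pr x' * pr y' →
      x = x' ∧ y = y' := by
    intro x y x' y' hxy hxy' he
    have he' : (pr x : ℕ) * (pr y : ℕ) = (pr x' : ℕ) * (pr y' : ℕ) := by
      have := congrArg PNat.val he
      simpa [PNat.mul_coe] using this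
    have hd : (pr x : ℕ) ∣ (pr x' : ℕ) * (pr y' : ℕ) := Dvd.intro _ he'
    rcases (Nat.Prime.dvd_mul (pr_prime x)).mp hd with h2 | h2
    · have h3 := (Nat.prime_dvd_prime_iff_eq (pr_prime x) (pr_prime x')).mp h2
      have h4 : x = x' := pr_injective (PNat.eq h3)
      subst h4
      refine ⟨rfl, ?_⟩
      have h5 : (pr y : ℕ) = (pr y' : ℕ) := Nat.eq_of_mul_eq_mul_left (pr x).pos he'
      exact pr_injective (PNat.eq h5)
    · have h3 := (Nat.prime_dvd_prime_iff_eq (pr_prime x) (pr_prime y')).mp h2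
      have h4 : x = y' := pr_injective (PNat.eq h3)
      subst h4
      rw [mul_comm (pr x' : ℕ)] at he'
      have h5 : (pr y : ℕ) = (pr x' : ℕ) := Nat.eq_of_mul_eq_mul_left (pr x).pos he'
      have h6 : y = x' := pr_injective (PNat.eq h5)
      omega
  -- transfer of properties of ordered pairs
  have key2 : ∀ φ : ℕ → ℕ → Prop,
      (∀ᶠ n in (U : Filter ℕ), ∀ᶠ m in (U : Filter ℕ), ∀ᶠ k in (U : Filter ℕ),
        φ m (Nat.pair n k)) ↔
      ∀ᶠ a in P, ∀ᶠ b in Q, ∃ x y : ℕ, a = pr x ∧ b = pr y ∧ φ x y := by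
    intro φ
    have h1 := key (fun z => ∃ x y : ℕ, x < y ∧ z = pr x * pr y ∧ φ x y)
    have h2 : (∀ᶠ n in (U : Filter ℕ), ∀ᶠ m in (U : Filter ℕ), ∀ᶠ k in (U : Filter ℕ),
        ∃ x y : ℕ, x < y ∧ pr m * pr (Nat.pair n k) = pr x * pr y ∧ φ x y) ↔
        (∀ᶠ n in (U : Filter ℕ), ∀ᶠ m in (U : Filter ℕ), ∀ᶠ k in (U : Filter ℕ),
        φ m (Nat.pair n k)) := by
      refine Filter.eventually_congr (Filter.Eventually.of_forall fun n => ?_)
      refine Filter.eventually_congr (Filter.Eventually.of_forall fun m => ?_)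
      refine Filter.eventually_congr ?_
      filter_upwards [U_pair_gt n m] with k hk
      constructor
      · rintro ⟨x, y, hxy, he, hφ⟩
        obtain ⟨h3, h4⟩ := huniq _ _ _ _ hk hxy he
        rw [h3, h4]
        exact hφ
      · intro hφ
        exact ⟨m, Nat.pair n k, hk, rfl, hφ⟩
    have h3 : (∀ᶠ a in P, ∀ᶠ b in Q, ∃ x y : ℕ, x < y ∧ a * b = pr x * pr y ∧ φ x y) ↔
        ∀ᶠ a in P, ∀ᶠ b in Q, ∃ x y : ℕ, a = pr x ∧ b = pr y ∧ φ x y := by
      refine Filter.eventually_congr ?_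
      filter_upwards [hP] with a ha
      refine Filter.eventually_congr ?_
      obtain ⟨i, rfl⟩ := exists_pr ha
      filter_upwards [hQ, hQbig i] with b hb hbi
      obtain ⟨j, rfl⟩ := exists_pr hb
      have hij : i < j := by
        by_contra hcon
        exact hbi j (not_lt.mp hcon) rfl
      constructor
      · rintro ⟨x, y, hxy, he, hφ⟩
        obtain ⟨h3, h4⟩ := huniq _ _ _ _ hij hxy he
        exact ⟨x, y, by rw [h3], by rw [h4], hφ⟩
      · rintro ⟨x, y, hx, hy, hφ⟩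
        have h3 := pr_injective hx
        have h4 := pr_injective hy
        subst h3 h4
        exact ⟨i, j, hij, rfl, hφ⟩
    rw [← h2, ← h3]
    exact h1
  -- the two iterated limits disagree
  have h1 : ∀ᶠ n in (U : Filter ℕ), ∀ᶠ m in (U : Filter ℕ), ∀ᶠ k in (U : Filter ℕ),
      (Nat.unpair (Nat.pair n k)).1 < m := by
    refine Filter.Eventually.of_forall fun n => ?_
    filter_upwards [U_gt n] with m hm
    refine Filter.Eventually.of_forall fun k => ?_
    rw [Nat.unpair_pair]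
    exact hm
  rw [key2 (fun x y => (Nat.unpair y).1 < x)] at h1
  obtain ⟨a, ha⟩ := h1.exists
  -- for one fixed `a = pr i`, almost all `b = pr y` satisfy `(unpair y).1 < i`
  obtain ⟨b₀, i, j₀, hi, -, -⟩ := ha.exists
  subst hi
  have h2 : ∀ᶠ a in P, ∀ᶠ b in Q, ∃ x y : ℕ, a = pr x ∧ b = pr y ∧ (Nat.unpair y).1 < i := by
    filter_upwards [hP] with a' ha'
    obtain ⟨x', rfl⟩ := exists_pr ha'
    filter_upwards [ha] with b hb
    obtain ⟨x, y, hx, hy, hlt⟩ := hb
    have := pr_injective hx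
    subst this
    exact ⟨x', y, rfl, hy, hlt⟩
  rw [← key2 (fun _ y => (Nat.unpair y).1 < i)] at h2
  obtain ⟨n, hn, hin⟩ := (h2.and (U_gt i)).exists
  obtain ⟨m, hm⟩ := hn.exists
  obtain ⟨k, hk⟩ := hm.exists
  rw [Nat.unpair_pair] at hk
  simp only at hk
  omega

/-- The only divisors of `F₀` are `1` and `F₀`. -/
theorem F₀_irreducible {X : Ultrafilter ℕ+} (h : DivM X F₀) : X = pure 1 ∨ X = F₀ := by
  obtain ⟨H₁, H₂, hF⟩ := h
  have h1 := om_F₀
  rw [hF, eventually_mulU, eventually_mulU] at h1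
  have h2 : ∀ᶠ a in H₁, ∀ᶠ b in X, ∀ᶠ c in H₂, om a + om b + om c = 2 := by
    filter_upwards [h1] with a ha
    filter_upwards [ha] with b hb
    filter_upwards [hb] with c hc
    rwa [om_mul, om_mul] at hc
  obtain ⟨a₀, ha₀⟩ := h2.exists
  obtain ⟨b₀, hb₀⟩ := ha₀.exists
  -- `om` is almost surely constant for each of the three ultrafilters
  have hc : ∀ᶠ c in H₂, om c = 2 - om a₀ - om b₀ := by
    filter_upwards [hb₀] with c hc
    omega
  have hb : ∀ᶠ b in X, om b = 2 - om a₀ - (2 - om a₀ - om b₀) := by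
    filter_upwards [ha₀] with b hb
    obtain ⟨c, hc1, hc2⟩ := (hb.and hc).exists
    omega
  have hble : om a₀ + om b₀ ≤ 2 := by
    obtain ⟨c, hc⟩ := hb₀.exists
    omega
  have hb' : ∀ᶠ b in X, om b = om b₀ := by
    filter_upwards [hb] with b hb
    omega
  have ha : ∀ᶠ a in H₁, om a = om a₀ := by
    filter_upwards [h2] with a ha
    obtain ⟨b, hb1, hb2⟩ := (ha.and hb').exists
    obtain ⟨c, hc1, hc2⟩ := (hb1.and hc).exists
    omega
  have hcases : om b₀ = 0 ∨ (om b₀ = 2 ∧ om a₀ = 0) ∨ (om b₀ = 1 ∧ om a₀ = 1) ∨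
      (om b₀ = 1 ∧ om a₀ = 0) := by omega
  rcases hcases with h0 | ⟨h0, h0'⟩ | ⟨h0, h0'⟩ | ⟨h0, h0'⟩
  · left
    apply eq_pure_of_eventually
    filter_upwards [hb'] with b hb
    exact om_eq_zero (hb.trans h0)
  · right
    have hH₁ : H₁ = pure 1 := by
      apply eq_pure_of_eventually
      filter_upwards [ha] with a ha
      exact om_eq_zero (ha.trans h0')
    have hH₂ : H₂ = pure 1 := by
      apply eq_pure_of_eventually
      filter_upwards [hc] with c hc
      apply om_eq_zero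
      omega
    rw [hF, hH₁, hH₂, one_mulU, mulU_one]
  · exfalso
    have hH₂ : H₂ = pure 1 := by
      apply eq_pure_of_eventually
      filter_upwards [hc] with c hc
      apply om_eq_zero
      omega
    rw [hH₂, mulU_one] at hF
    refine F₀_ne_mulU ?_ ?_ hF
    · filter_upwards [ha] with a ha
      exact om_eq_one (ha.trans h0')
    · filter_upwards [hb'] with b hb
      exact om_eq_one (hb.trans h0)
  · exfalso
    have hH₁ : H₁ = pure 1 := by
      apply eq_pure_of_eventually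
      filter_upwards [ha] with a ha
      exact om_eq_zero (ha.trans h0')
    rw [hH₁, one_mulU] at hF
    refine F₀_ne_mulU ?_ ?_ hF
    · filter_upwards [hb'] with b hb
      exact om_eq_one (hb.trans h0)
    · filter_upwards [hc] with c hc
      apply om_eq_one
      omega

theorem F₀_minimal : IsMinimal DivM F₀ := by
  refine ⟨F₀_ne_one, fun X hX => ?_⟩
  rcases F₀_irreducible hX with h | h
  · exact Or.inl h
  · right
    subst h
    exact ⟨divM_refl _, divM_refl _⟩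

/-- **Negative answer to Q1.**  There are ultrafilters `F`, `G` on the positive integers such
that `F` is `∣_M`-minimal, `G ≠ 1`, `G ≤_fe F` and `F ≰_fe G`.  In particular `F` is
`∣_M`-minimal but not `≤_fe`-minimal. -/
theorem result : ∃ F G : Ultrafilter ℕ+,
    IsMinimal DivM F ∧ G ≠ pure 1 ∧ Fe G F ∧ ¬ Fe F G ∧ ¬ IsMinimal Fe F := by
  refine ⟨F₀, G₀, F₀_minimal, G₀_ne_one, fe_G₀_F₀, not_fe_F₀_G₀, ?_⟩
  rintro ⟨-, h⟩
  rcases h G₀ fe_G₀_F₀ with h1 | ⟨-, h1⟩
  · exact G₀_ne_one h1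
  · exact not_fe_F₀_G₀ h1

end Pool.Agent.Results.MP_b27926_lc.MinimalNotFeMinimal
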